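import Pool.Agent.V11201.SH.G4
import Pool.Agent.V11201.SH.M3
import Pool.Agent.H499R2.NDCor
import Pool.Agent.H499R2.NDCor3
import Pool.Agent.H499R2.CO.R6

set_option autoImplicit false

/-! The basins of the cycles of the `3x+1` map on the integers at all scales, and sets of integers whose
orbits reach all cycles. -/

namespace Pool.Agent.Results.MP_dee342_nt.BasinsAllScales

open Filter Topology
open Pool.Agent.H499R2.CO (Tz)

/-- the map `T_{a,b}` on the integers -/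
def T (a b x : ℤ) : ℤ := if x % 2 = 0 then x / 2 else (a * x + b) / 2

/-- the `3x+1` map `T_3 = T_{3,1}` -/
def T₃ (x : ℤ) : ℤ := T 3 1 x

/-- `Z` is a cycle (periodic orbit) of `T_3`, as a set -/
def IsCycle (Z : Set ℤ) : Prop :=
  ∃ (x : ℤ) (p : ℕ), 1 ≤ p ∧ T₃^[p] x = x ∧ Z = {y : ℤ | ∃ i : ℕ, i < p ∧ T₃^[i] x = y}

/-- the orbit of `x` ends in `Z` -/
def EndsIn (Z : Set ℤ) (x : ℤ) : Prop := ∃ j : ℕ, T₃^[j] x ∈ Z

/-- the orbits of `x` and `y` end in the same cycle, or both in none -/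
def SameEnd (x y : ℤ) : Prop := ∀ Z : Set ℤ, IsCycle Z → (EndsIn Z x ↔ EndsIn Z y)

/-- the number of the `1 ≤ j ≤ H` for which the orbits of `x` and `x + j` do not end in the same cycle -/
noncomputable def strays (x : ℤ) (H : ℕ) : ℕ := {j : ℕ | 1 ≤ j ∧ j ≤ H ∧ ¬ SameEnd x (x + j)}.ncard

/-- the number of the `1 ≤ j ≤ H` for which `x + j` has the property `P` -/
noncomputable def inside (P : ℤ → Prop) (x : ℤ) (H : ℕ) : ℕ :=
  {j : ℕ | 1 ≤ j ∧ j ≤ H ∧ P (x + j)}.ncard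

/-- The positive integers with the property `P` have the natural density `δ`. -/
def HasDensity (P : ℕ → Prop) (δ : ℝ) : Prop :=
  Tendsto (fun N : ℕ => ({n : ℕ | 1 ≤ n ∧ n ≤ N ∧ P n}.ncard : ℝ) / N) atTop (𝓝 δ)

/-- `g n = n ^ o(1)`: `log (1 + g n) / log n` tends to `0` -/
def SubPower (g : ℕ → ℕ) : Prop := Tendsto (fun n : ℕ => Real.log (1 + g n) / Real.log n) atTop (𝓝 0)

/-- Let `P` have the density `δ` on the side `s`. For almost all `n` such that `s n` has the property `P`,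
all but `ε H` of the integers `s n + 1, ..., s n + H` have it, for all `H ≤ g n` at once; for almost all
other `n` at most `ε H` of them have it, for all `H ≤ g n` at once. -/
def Solid (s : ℤ) (P : ℤ → Prop) (δ : ℝ) : Prop :=
  HasDensity (fun n => P (s * n)) δ ∧ ∀ g : ℕ → ℕ, SubPower g → ∀ ε : ℝ, 0 < ε →
    HasDensity (fun n => P (s * n) ∧ ∀ H : ℕ, 1 ≤ H → H ≤ g n → (1 - ε) * H ≤ inside P (s * n) H) δ ∧
    HasDensity (fun n => ¬ P (s * n) ∧ ∀ H : ℕ, 1 ≤ H → H ≤ g n → (inside P (s * n) H : ℝ) ≤ ε * H) (1 - δ)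

/-- `S` is spread on the side `s`: for every `ε > 0` there is `c > 0` such that for all `θ > 0` and
infinitely many `N`: for all but `ε N` of the `n ≤ N` at least `c H` of the integers
`s n + 1, ..., s n + H` are in `S`, `H = ⌊N ^ θ⌋`. -/
def Spread (s : ℤ) (S : Set ℤ) : Prop :=
  ∀ ε : ℝ, 0 < ε → ∃ c : ℝ, 0 < c ∧ ∀ θ : ℝ, 0 < θ → ∃ᶠ N : ℕ in atTop,
    ({n : ℕ | 1 ≤ n ∧ n ≤ N ∧ (({j : ℕ | 1 ≤ j ∧ j ≤ ⌊(N : ℝ) ^ θ⌋₊ ∧ s * (n : ℤ) + j ∈ S}.ncard : ℕ) : ℝ) <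
      c * ⌊(N : ℝ) ^ θ⌋₊}.ncard : ℝ) ≤ ε * N

theorem T_Tz : T₃ = Tz 1 := rfl

theorem cyc_closed {Z : Set ℤ} (hZ : IsCycle Z) {y : ℤ} (hy : y ∈ Z) : T₃ y ∈ Z := by
  obtain ⟨x, p, hp, hpx, rfl⟩ := hZ
  obtain ⟨i, hi, rfl⟩ := hy
  rcases Nat.lt_or_ge (i + 1) p with h | h
  · exact ⟨i + 1, h, by rw [Function.iterate_succ_apply']⟩
  · have e : i + 1 = p := by omega
    refine ⟨0, by omega, ?_⟩
    rw [← Function.iterate_succ_apply' T₃ i x, Nat.succ_eq_add_one, e, hpx]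
    rfl

theorem ends_inv {Z : Set ℤ} (hZ : IsCycle Z) (x : ℤ) : EndsIn Z x ↔ EndsIn Z (Tz 1 x) := by
  rw [← T_Tz]
  constructor
  · rintro ⟨j, hj⟩
    refine ⟨j, ?_⟩
    rw [← Function.iterate_succ_apply, Function.iterate_succ_apply']
    exact cyc_closed hZ hj
  · rintro ⟨j, hj⟩
    exact ⟨j + 1, by rw [Function.iterate_succ_apply]; exact hj⟩

theorem inv_merge {P : ℤ → Prop} (hP : ∀ x, P x ↔ P (Tz 1 x)) {x y : ℤ} {t : ℕ}
    (h : (Tz 1)^[t] x = (Tz 1)^[t] y) : P x ↔ P y := by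
  have key : ∀ (t : ℕ) (x : ℤ), P x ↔ P ((Tz 1)^[t] x) := by
    intro t
    induction t with
    | zero => intro x; rfl
    | succ t ih => intro x; rw [Function.iterate_succ_apply, ← ih, ← hP]
  rw [key t x, h, ← key t y]

/-- densities of invariant sets -/
theorem dens_inv {s : ℤ} (hs : s = 1 ∨ s = -1) {P : ℤ → Prop}
    (hP : ∀ x, P x ↔ P (Tz 1 x)) : ∃ ρ : ℝ, 0 ≤ ρ ∧ ρ ≤ 1 ∧ HasDensity (fun n => P (s * n)) ρ ∧
      ((∃ a, P a ∧ 0 < s * a) → 0 < ρ) ∧ ((∃ a, ¬ P a ∧ 0 < s * a) → ρ < 1) ∧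
      ((∀ a, P a → ¬ 0 < s * a) → ρ = 0) := by
  have hinv : Pool.Agent.H499R2.ND.Inv 1 {x : ℤ | P x} := hP
  obtain ⟨l, hl0, hl1, hl⟩ := Pool.Agent.H499R2.ND.dens_side odd_one isCoprime_one_left hs hinv
  refine ⟨l, hl0, hl1, ?_, ?_, ?_, ?_⟩
  · refine (Pool.Agent.H499R2.ND.HD_ncard hs hl).congr fun N => ?_
    rw [Pool.Agent.H499R2.CO.side_ncard hs]
    rfl
  · rintro ⟨a, ha, hsa⟩
    exact Pool.Agent.H499R2.ND.one_pos hs hinv ha hsa hl
  · rintro ⟨a, ha, hsa⟩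
    exact Pool.Agent.H499R2.ND.one_lt hs hinv ha hsa hl
  · intro h
    exact Pool.Agent.H499R2.ND.one_eq_zero hs (S := {x : ℤ | P x}) h hl

open Pool.Agent.V11201.SH in
theorem solid {s : ℤ} (hs : s = 1 ∨ s = -1) {P : ℤ → Prop} (hP : ∀ x, P x ↔ P (Tz 1 x)) {ρ : ℝ}
    (h2 : HasDensity (fun n => P (s * n)) ρ) : Solid s P ρ := by
  refine ⟨h2, fun g hg ε hε => ?_⟩
  have hsc := meet_dens (d := 1) (by norm_num) hs hg hε
  constructor
  · refine Pool.Agent.H499R2.CO.HD_congr hsc h2 (fun n _ hn => ⟨fun h5 => ⟨h5, fun H hH1 hH2 => ?_⟩,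
      fun h5 => h5.1⟩)
    have h6 := hn H hH1 hH2
    have hsub : ((Finset.Icc 1 H : Finset ℕ) : Set ℕ) ⊆
        {j : ℕ | 1 ≤ j ∧ j ≤ H ∧ P (s * (n : ℤ) + j)} ∪
        {j : ℕ | 1 ≤ j ∧ j ≤ H ∧ ¬ ∃ t : ℕ, (Tz 1)^[t] (s * (n : ℤ)) =
          (Tz 1)^[t] (s * (n : ℤ) + 1 * (j : ℤ))} := by
      intro j hj
      rw [Finset.coe_Icc] at hj
      by_cases h7 : ∃ t : ℕ, (Tz 1)^[t] (s * (n : ℤ)) = (Tz 1)^[t] (s * (n : ℤ) + 1 * (j : ℤ))
      · left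
        obtain ⟨t, ht⟩ := h7
        have h8 := (inv_merge hP ht).1 h5
        rw [one_mul] at h8
        exact ⟨hj.1, hj.2, h8⟩
      · exact Or.inr ⟨hj.1, hj.2, h7⟩
    have h8 := (Set.ncard_le_ncard hsub ((fin_le _ H).union (fin_le _ H))).trans (Set.ncard_union_le _ _)
    rw [Set.ncard_coe_finset, Nat.card_Icc, Nat.add_sub_cancel] at h8
    have h9 : (H : ℝ) ≤ (inside P (s * n) H : ℝ) + (nomeet 1 (s * n) H : ℝ) := by
      exact_mod_cast h8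
    linarith
  · refine Pool.Agent.H499R2.CO.HD_congr hsc (Pool.Agent.H499R2.CO.HD_not h2)
      (fun n _ hn => ⟨fun h5 => ⟨h5, fun H hH1 hH2 => ?_⟩, fun h5 => h5.1⟩)
    have h6 := hn H hH1 hH2
    have h7 : inside P (s * n) H ≤ nomeet 1 (s * n) H := by
      unfold inside nomeet
      apply Set.ncard_le_ncard
      · rintro j ⟨a1, a2, a3⟩
        refine ⟨a1, a2, ?_⟩
        rintro ⟨t, ht⟩
        rw [one_mul] at ht
        exact h5 ((inv_merge hP ht).2 a3)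
      · exact fin_le _ H
    have h8 : (inside P (s * n) H : ℝ) ≤ (nomeet 1 (s * n) H : ℝ) := by exact_mod_cast h7
    linarith

theorem same_merge {x y : ℤ} {t : ℕ} (h : (Tz 1)^[t] x = (Tz 1)^[t] y) : SameEnd x y :=
  fun _ hZ => inv_merge (ends_inv hZ) h

theorem strays_le (x : ℤ) (H : ℕ) : strays x H ≤ Pool.Agent.V11201.SH.nomeet 1 x H := by
  unfold strays Pool.Agent.V11201.SH.nomeet
  apply Set.ncard_le_ncard
  · rintro j ⟨h1, h2, h3⟩
    refine ⟨h1, h2, fun h4 => h3 ?_⟩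
    obtain ⟨t, ht⟩ := h4
    rw [one_mul] at ht
    exact same_merge ht
  · exact Pool.Agent.V11201.SH.fin_le _ H

theorem strays_le' (N : ℕ) (x : ℤ) (H : ℕ) : strays x H ≤ Pool.Agent.V11201.SH.apart 1 N x H := by
  unfold strays Pool.Agent.V11201.SH.apart
  apply Set.ncard_le_ncard
  · rintro j ⟨h1, h2, h3⟩
    refine ⟨h1, h2, fun h4 => h3 ?_⟩
    obtain ⟨t, _, ht⟩ := h4
    rw [one_mul] at ht
    exact same_merge ht
  · exact Pool.Agent.V11201.SH.fin_le _ H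

theorem reach_cycle {S : Set ℤ} (hS : ∀ s : ℤ, s = 1 ∨ s = -1 → Spread s S) {Z : Set ℤ} (hZ : IsCycle Z)
    (h0 : Z ≠ {0}) : ∃ x ∈ S, EndsIn Z x := by
  obtain ⟨c, p, hp, hpc, hZe⟩ := id hZ
  have hcZ : c ∈ Z := by rw [hZe]; exact ⟨0, by omega, rfl⟩
  have hc0 : c ≠ 0 := by
    rintro rfl
    apply h0
    have e : ∀ i : ℕ, T₃^[i] 0 = 0 := by
      intro i
      induction i with
      | zero => rfl
      | succ i ih => rw [Function.iterate_succ_apply', ih]; rfl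
    rw [hZe]
    ext y
    constructor
    · rintro ⟨i, _, hi⟩
      rw [e] at hi
      exact hi.symm
    · intro hy
      have hy' : y = 0 := hy
      subst hy'
      exact ⟨0, by omega, rfl⟩
  have hc3 : ¬ (3 : ℤ) ∣ c :=
    Pool.Agent.H366R2.KGen.periodic_not_dvd (k := 1) (by norm_num) (by norm_num) hc0 hp hpc
  obtain ⟨s, hs, hsc⟩ : ∃ s : ℤ, (s = 1 ∨ s = -1) ∧ 0 < s * c := by
    rcases lt_or_gt_of_ne hc0 with h | h
    · exact ⟨-1, Or.inr rfl, by omega⟩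
    · exact ⟨1, Or.inl rfl, by omega⟩
  have hS' : Pool.Agent.V11201.SH.SpreadD 1 s S := by
    intro ε hε
    obtain ⟨c, hc, h1⟩ := hS s hs ε hε
    refine ⟨c, hc, fun θ hθ => ?_⟩
    simp only [one_mul]
    exact h1 θ hθ
  obtain ⟨x, hx, j, hj⟩ := Pool.Agent.V11201.SH.spread_hit (d := 1) (by norm_num) (by norm_num) hc3 hs hsc hS'
  refine ⟨x, hx, j, ?_⟩
  rw [T_Tz, hj]
  exact hcZ

open Pool.Agent.V11201.SH in
/-- **Basins of the cycles of `T_3` at all scales.** For `s = 1` and `s = -1`: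
(1) for at most `(A / κ) √((1 + log (1 + H)) log log N / log N) N` of the `n ≤ N` the orbits of more than `κ H`
of the integers `s n + 1, ..., s n + H` do not end as the one of `s n` (in the same cycle, or both in none);
(2) for every `ε > 0` there is `θ > 0` such that for large `N`, for all but `ε N` of the `n ≤ N` and ALL
`1 ≤ H ≤ N ^ θ` the orbits of all but `ε H` of the integers `s n + 1, ..., s n + H` end as the one of `s n`;
(3) the integers of sign `s` whose orbits end in a given cycle of sign `s` have a positive density and form a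
solid set (see `Solid`).
(4) If `S` is spread on both sides, then each cycle `≠ {0}` is reached by the orbit of an element of `S`; so
if the orbits of the elements of `S` reach only finitely many cycles, `T_3` has only finitely many cycles. -/
theorem result :
    (∀ s : ℤ, s = 1 ∨ s = -1 →
      (∃ A : ℝ, 0 < A ∧ ∀ N : ℕ, 16 ≤ N → ∀ (H : ℕ) (κ : ℝ), 0 < κ →
        ({n : ℕ | 1 ≤ n ∧ n ≤ N ∧ κ * H < strays (s * n) H}.ncard : ℝ) ≤
          A / κ * √ ((1 + Real.log (1 + H)) * (Real.log (Real.log N) / Real.log N)) * N) ∧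
      (∀ ε : ℝ, 0 < ε → ∃ θ : ℝ, 0 < θ ∧ ∃ N₀ : ℕ, ∀ N ≥ N₀, ({n : ℕ | 1 ≤ n ∧ n ≤ N ∧
        ∃ H : ℕ, 1 ≤ H ∧ (H : ℝ) ≤ (N : ℝ) ^ θ ∧ ε * H < strays (s * n) H}.ncard : ℝ) ≤ ε * N) ∧
      (∀ Z : Set ℤ, IsCycle Z → (∃ c ∈ Z, 0 < s * c) →
        ∃ β : ℝ, 0 < β ∧ β ≤ 1 ∧ Solid s (EndsIn Z) β)) ∧
    (∀ S : Set ℤ, (∀ s : ℤ, s = 1 ∨ s = -1 → Spread s S) →
      (∀ Z : Set ℤ, IsCycle Z → Z ≠ {0} → ∃ x ∈ S, EndsIn Z x) ∧
      ({Z : Set ℤ | IsCycle Z ∧ ∃ x ∈ S, EndsIn Z x}.Finite → {Z : Set ℤ | IsCycle Z}.Finite)) := by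
  refine ⟨fun s hs => ⟨?_, ?_, ?_⟩, fun S hS => ⟨fun Z hZ h0 => reach_cycle hS hZ h0, fun hfin => ?_⟩⟩
  · obtain ⟨A, hA, h⟩ := apart_rate
    refine ⟨A, hA, fun N hN H κ hκ => le_trans ?_ (h 1 (by norm_num) s hs N hN H κ hκ)⟩
    exact_mod_cast Set.ncard_le_ncard (by
      rintro n ⟨h1, h2, h3⟩
      exact ⟨h1, h2, h3.trans_le (by exact_mod_cast strays_le' N _ H)⟩) (fin_le _ N)
  · intro ε hε
    obtain ⟨θ, hθ, N0, h⟩ := meet_max (d := 1) (by norm_num) hs hε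
    refine ⟨θ, hθ, N0, fun N hN => le_trans ?_ (h N hN)⟩
    exact_mod_cast Set.ncard_le_ncard (by
      rintro n ⟨h1, h2, H, h3, h4, h5⟩
      refine ⟨h1, h2, H, h3, h4, h5.trans_le ?_⟩
      exact_mod_cast strays_le _ H) (fin_le _ N)
  · rintro Z hZ ⟨c, hc, hsc⟩
    obtain ⟨β, _, h1, hd, h2, _, _⟩ := dens_inv hs (ends_inv hZ)
    exact ⟨β, h2 ⟨c, ⟨0, hc⟩, hsc⟩, h1, solid hs (ends_inv hZ) hd⟩
  · apply (hfin.insert {0}).subset
    intro Z hZ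
    by_cases h0 : Z = {0}
    · exact Or.inl h0
    · exact Or.inr ⟨hZ, reach_cycle hS hZ h0⟩

end Pool.Agent.Results.MP_dee342_nt.BasinsAllScales
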