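import Pool.Agent.Results.MP_dee342_nt.IntervalLengths
import Pool.Agent.V11001.KM.Near

/-!
# No lengths of cycles of the 3x+1 map near the powers of almost every real number

Let `ν n / log n → ∞`, for example `ν n = n`. For almost every real `z > 1`, for all `θ < 1/13` and all `β` of a
given countable set, only finitely many cycles `Z` of the `3x+1` map on the integers have a number of elements with
`||Z| - β z ^ (ν n)| ≤ z ^ (θ ν n)` for some `n`.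
-/

set_option autoImplicit false

namespace Pool.Agent.Results.MP_dee342_nt.CycleLengthsNearPowers

open Pool.Agent.V11001.KM
open IntervalLengths (T IsCycle)

/-- the lengths of cycles -/
def Lengths : Set ℕ := {p : ℕ | ∃ Z : Finset ℤ, IsCycle Z ∧ Z.card = p}

lemma count (ε : ℝ) (hε : 0 < ε) : ∃ C : ℝ, ∀ X : ℝ, 1 ≤ X →
    {t : ℕ | t ∈ Lengths ∧ (t : ℝ) ≤ X}.Finite ∧
      ({t : ℕ | t ∈ Lengths ∧ (t : ℝ) ≤ X}.ncard : ℝ) ≤ C * X ^ ((12 : ℝ) / 13 + ε) := by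
  obtain ⟨C, hC⟩ := IntervalLengths.result
  refine ⟨|C| * 2, fun X hX => ?_⟩
  have h1 := hC 0 (⌊X⌋₊ + 1) (by omega)
  have hfin : {p : ℕ | 0 ≤ p ∧ p < 0 + (⌊X⌋₊ + 1) ∧ ∃ Z : Finset ℤ, IsCycle Z ∧ Z.card = p}.Finite :=
    (Set.finite_Iio (0 + (⌊X⌋₊ + 1))).subset (fun p hp => hp.2.1)
  have hsub : {t : ℕ | t ∈ Lengths ∧ (t : ℝ) ≤ X} ⊆
      {p : ℕ | 0 ≤ p ∧ p < 0 + (⌊X⌋₊ + 1) ∧ ∃ Z : Finset ℤ, IsCycle Z ∧ Z.card = p} := by
    rintro p ⟨hp, hpX⟩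
    have h2 := Nat.le_floor hpX
    exact ⟨Nat.zero_le _, by omega, hp⟩
  refine ⟨hfin.subset hsub, ?_⟩
  have h2 := Set.ncard_le_ncard hsub hfin
  have h3 : ({t : ℕ | t ∈ Lengths ∧ (t : ℝ) ≤ X}.ncard : ℝ) ≤ C * ((⌊X⌋₊ + 1 : ℕ) : ℝ) ^ ((12 : ℝ) / 13) :=
    le_trans (by exact_mod_cast h2) h1
  have hf : ((⌊X⌋₊ + 1 : ℕ) : ℝ) ≤ 2 * X := by
    push_cast
    have := Nat.floor_le (show 0 ≤ X by linarith)
    linarith
  have h4 : ((⌊X⌋₊ + 1 : ℕ) : ℝ) ^ ((12 : ℝ) / 13) ≤ 2 * X ^ ((12 : ℝ) / 13 + ε) := by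
    calc ((⌊X⌋₊ + 1 : ℕ) : ℝ) ^ ((12 : ℝ) / 13) ≤ (2 * X) ^ ((12 : ℝ) / 13) :=
          Real.rpow_le_rpow (Nat.cast_nonneg _) hf (by norm_num)
      _ = 2 ^ ((12 : ℝ) / 13) * X ^ ((12 : ℝ) / 13) := Real.mul_rpow (by norm_num) (by linarith)
      _ ≤ 2 * X ^ ((12 : ℝ) / 13 + ε) := by
          refine mul_le_mul ?_ (Real.rpow_le_rpow_of_exponent_le hX (by linarith)) (by positivity) (by norm_num)
          calc (2 : ℝ) ^ ((12 : ℝ) / 13) ≤ 2 ^ (1 : ℝ) :=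
                Real.rpow_le_rpow_of_exponent_le (by norm_num) (by norm_num)
            _ = 2 := Real.rpow_one 2
  calc ({t : ℕ | t ∈ Lengths ∧ (t : ℝ) ≤ X}.ncard : ℝ) ≤ C * ((⌊X⌋₊ + 1 : ℕ) : ℝ) ^ ((12 : ℝ) / 13) := h3
    _ ≤ |C| * ((⌊X⌋₊ + 1 : ℕ) : ℝ) ^ ((12 : ℝ) / 13) := mul_le_mul_of_nonneg_right (le_abs_self C) (by positivity)
    _ ≤ |C| * (2 * X ^ ((12 : ℝ) / 13 + ε)) := mul_le_mul_of_nonneg_left h4 (abs_nonneg C)
    _ = |C| * 2 * X ^ ((12 : ℝ) / 13 + ε) := by ring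

/-- points with the same period and the same parities along the period coincide -/
lemma step (x : ℤ) : 2 * T 3 1 x = (if x % 2 = 0 then 1 else 3) * x + (if x % 2 = 0 then 0 else 1) := by
  unfold T
  split_ifs with h
  · omega
  · omega

/-- a form of the iterates -/
lemma iter (p : ℕ) : ∃ (S : Finset (ℤ × ℤ)), (∀ c ∈ S, ∃ k : ℕ, c.1 = 3 ^ k) ∧
    ∀ x : ℤ, ∃ c ∈ S, 2 ^ p * (T 3 1)^[p] x = c.1 * x + c.2 := by
  induction p with
  | zero => exact ⟨{(1, 0)}, fun c hc => ⟨0, by rw [Finset.mem_singleton.1 hc]; rfl⟩,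
      fun x => ⟨(1, 0), by simp, by simp⟩⟩
  | succ p ih =>
    obtain ⟨S, hS, h⟩ := ih
    refine ⟨S.image (fun c => (c.1, c.2)) ∪ S.image (fun c => (3 * c.1, 3 * c.2 + 2 ^ p)), ?_, fun x => ?_⟩
    · intro c hc
      rcases Finset.mem_union.1 hc with hc | hc
      · obtain ⟨d, hd, rfl⟩ := Finset.mem_image.1 hc
        exact hS d hd
      · obtain ⟨d, hd, rfl⟩ := Finset.mem_image.1 hc
        obtain ⟨k, hk⟩ := hS d hd
        exact ⟨k + 1, by simp only; rw [hk]; ring⟩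
    · obtain ⟨c, hc, hx⟩ := h x
      rw [Function.iterate_succ_apply']
      have h1 := step ((T 3 1)^[p] x)
      split_ifs at h1 with h2
      · refine ⟨(c.1, c.2), Finset.mem_union_left _ (Finset.mem_image.2 ⟨c, hc, rfl⟩), ?_⟩
        simp only
        rw [← hx, pow_succ]
        linear_combination (2 ^ p) * h1
      · refine ⟨(3 * c.1, 3 * c.2 + 2 ^ p), Finset.mem_union_right _ (Finset.mem_image.2 ⟨c, hc, rfl⟩), ?_⟩
        simp only
        rw [pow_succ]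
        linear_combination (2 ^ p) * h1 + 3 * hx

/-- finitely many points have a given period -/
lemma finite_period (p : ℕ) (hp : 1 ≤ p) : {x : ℤ | (T 3 1)^[p] x = x}.Finite := by
  obtain ⟨S, hS, h⟩ := iter p
  have hsub : {x : ℤ | (T 3 1)^[p] x = x} ⊆ ⋃ c ∈ S, {x : ℤ | (2 ^ p - c.1) * x = c.2} := by
    intro x hx
    obtain ⟨c, hc, h1⟩ := h x
    rw [show (T 3 1)^[p] x = x from hx] at h1
    refine Set.mem_biUnion hc ?_
    rw [Set.mem_ofPred_eq]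
    linear_combination h1
  refine Set.Finite.subset (Set.Finite.biUnion (Finset.finite_toSet S) fun c hc => ?_) hsub
  obtain ⟨k, hk⟩ := hS c hc
  have h0 : (2 ^ p - c.1 : ℤ) ≠ 0 := by
    intro h0
    have h1 : (2 : ℤ) ^ p = 3 ^ k := by rw [← hk]; linarith
    have h2 : (2 : ℤ) ∣ 3 ^ k := by
      rw [← h1]
      exact dvd_pow_self 2 (by omega)
    have h3 := Int.prime_two.dvd_of_dvd_pow h2
    norm_num at h3
  refine Set.Subsingleton.finite fun x hx y hy => ?_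
  have h1 : (2 ^ p - c.1) * x = (2 ^ p - c.1) * y := by
    rw [show (2 ^ p - c.1) * x = c.2 from hx, show (2 ^ p - c.1) * y = c.2 from hy]
  exact mul_left_cancel₀ h0 h1

/-- a cycle is determined by a point of it and has a period at most its length -/
lemma cycle_points {Z : Finset ℤ} (hZ : IsCycle Z) : ∃ x : ℤ, ∃ p : ℕ, 1 ≤ p ∧ p ≤ Z.card ∧ (T 3 1)^[p] x = x ∧
    Z = (Finset.range p).image fun i => (T 3 1)^[i] x := by
  obtain ⟨x, q, hq, hx, rfl⟩ := hZ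
  obtain ⟨p, hp⟩ : ∃ p, p = Function.minimalPeriod (T 3 1) x := ⟨_, rfl⟩
  have hper : Function.IsPeriodicPt (T 3 1) q x := hx
  have hp1 : 1 ≤ p := by
    rw [hp]
    exact hper.minimalPeriod_pos hq
  have hpp : (T 3 1)^[p] x = x := by
    rw [hp]
    exact Function.isPeriodicPt_minimalPeriod _ _
  have himg : ((Finset.range q).image fun i => (T 3 1)^[i] x) = (Finset.range p).image fun i => (T 3 1)^[i] x := by
    ext y
    simp only [Finset.mem_image, Finset.mem_range]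
    constructor
    · rintro ⟨i, -, rfl⟩
      refine ⟨i % p, Nat.mod_lt _ hp1, ?_⟩
      rw [hp]
      exact Function.iterate_mod_minimalPeriod_eq
    · rintro ⟨i, hi, rfl⟩
      refine ⟨i, lt_of_lt_of_le hi ?_, rfl⟩
      rw [hp]
      exact hper.minimalPeriod_le hq
  refine ⟨x, p, hp1, ?_, hpp, himg⟩
  rw [himg, Finset.card_image_of_injOn, Finset.card_range]
  intro i hi j hj hij
  rw [Finset.coe_range, Set.mem_Iio, hp] at hi hj
  exact Function.iterate_injOn_Iio_minimalPeriod hi hj hij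

/-- finitely many cycles of bounded length -/
lemma finite_cycles (H₀ : ℝ) : {Z : Finset ℤ | IsCycle Z ∧ (Z.card : ℝ) < H₀}.Finite := by
  have hfin : (⋃ p ∈ Finset.Icc 1 ⌈H₀⌉₊, (fun x : ℤ => (Finset.range p).image fun i => (T 3 1)^[i] x) ''
      {x : ℤ | (T 3 1)^[p] x = x}).Finite :=
    Set.Finite.biUnion (Finset.finite_toSet _) fun p hp =>
      (finite_period p (Finset.mem_Icc.1 hp).1).image _
  refine hfin.subset ?_
  rintro Z ⟨hZ, hH⟩
  obtain ⟨x, p, hp, hpZ, hx, hZ2⟩ := cycle_points hZ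
  have h1 : p ∈ Finset.Icc 1 ⌈H₀⌉₊ := by
    refine Finset.mem_Icc.2 ⟨hp, ?_⟩
    have h2 : (p : ℝ) ≤ ⌈H₀⌉₊ := (by exact_mod_cast hpZ : (p : ℝ) ≤ Z.card).trans (hH.le.trans (Nat.le_ceil _))
    exact_mod_cast h2
  exact Set.mem_biUnion h1 ⟨x, hx, hZ2.symm⟩

/-- **Theorem.** Let `ν n / log n → ∞` and `B` a countable set of real numbers. (1) For `θ < 1` there is a set `E` of
Hausdorff dimension at most `(12/13) / (1 - θ)` such that for each `z > 1` outside `E` and each positive `β` in `B` only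
finitely many cycles `Z` of the `3x+1` map on the integers satisfy `||Z| - β z ^ (ν n)| ≤ z ^ (θ ν n)` for some `n`.
(2) For almost every `z > 1` this holds for all `θ < 1/13`. -/
theorem result : ∀ ν : ℕ → ℝ, Fast ν → ∀ B : Set ℝ, B.Countable →
    (∀ θ : ℝ, θ < 1 → ∃ E : Set ℝ, dimH E ≤ ENNReal.ofReal ((12 / 13) / (1 - θ)) ∧
      ∀ z : ℝ, 1 < z → z ∉ E → ∀ β ∈ B, 0 < β →
        {Z : Finset ℤ | IsCycle Z ∧ Near ν θ β z (Z.card : ℝ)}.Finite) ∧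
    (∀ᵐ z : ℝ, 1 < z → ∀ θ : ℝ, θ < 1 / 13 → ∀ β ∈ B, 0 < β →
        {Z : Finset ℤ | IsCycle Z ∧ Near ν θ β z (Z.card : ℝ)}.Finite) := by
  intro ν hν B hB
  have hC : ∀ _ : Unit, ∀ ε : ℝ, 0 < ε → ∃ C : ℝ, ∀ X : ℝ, 1 ≤ X →
      {t : ℕ | t ∈ Lengths ∧ (t : ℝ) ≤ X}.Finite ∧
        ({t : ℕ | t ∈ Lengths ∧ (t : ℝ) ≤ X}.ncard : ℝ) ≤ C * X ^ ((12 : ℝ) / 13 + ε) := fun _ => count
  have key : ∀ (θ z β : ℝ), (∃ H₀ : ℝ, ∀ t ∈ Lengths, Near ν θ β z (t : ℝ) → (t : ℝ) < H₀) →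
      {Z : Finset ℤ | IsCycle Z ∧ Near ν θ β z (Z.card : ℝ)}.Finite := by
    rintro θ z β ⟨H₀, h⟩
    refine (finite_cycles H₀).subset ?_
    rintro Z ⟨hZ, hn⟩
    exact ⟨hZ, h Z.card ⟨Z, hZ, rfl⟩ hn⟩
  refine ⟨fun θ hθ => ?_, ?_⟩
  · obtain ⟨E, h1, h2⟩ := family_threshold (fun t : ℕ => (t : ℝ)) hν (s := 12 / 13) (by norm_num) hθ B hB
      (J := Unit) (fun _ => Lengths) hC
    exact ⟨E, h1, fun z hz hzE β hβ hβ0 => key θ z β (h2 z hz hzE β hβ hβ0 ())⟩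
  · filter_upwards [ae_family_threshold (fun t : ℕ => (t : ℝ)) hν (s := 12 / 13) (by norm_num) B hB
      (J := Unit) (fun _ => Lengths) hC] with z hz hz1 θ hθ β hβ hβ0
    exact key θ z β (hz hz1 θ (by linarith) β hβ hβ0 ())

end Pool.Agent.Results.MP_dee342_nt.CycleLengthsNearPowers
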