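import Pool.Agent.V11243.PD.Base
import Pool.Agent.Results.MP_dee342_nt.CycleLengthsNearPowers

/-!
# The lengths of the cycles of the 3x+1 map in residue classes modulo powers of a prime

`|Z|` is the number of elements of a cycle `Z` of the `3x+1` map on the integers.

1. For every prime `p` and `σ > 0`, for all `α ∈ ℤ_p` outside of a set of Hausdorff dimension at most
`(12/13) / σ` and all large `T`, no cycle `Z` with `|Z| ≤ T` satisfies `| |Z| - α |_p ≤ T ^ (-σ)`. So for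
`12/13 < σ < 1` and almost all `α` the progression of all `n ≡ α` modulo `p ^ j`, `n ≤ p ^ (j / σ)`, contains no
length of a cycle if `j` is large.

2. For every map `φ` of `ℕ` to a metric space and `σ > 0`, for all `z` outside of a set of Hausdorff dimension at
most `(12/13) / σ`, only finitely many cycles `Z` satisfy `dist (φ |Z|) z ≤ |Z| ^ (-σ)`: for example
`φ n = n β` in the circle, or `φ n = (n, ..., n)` in the product of several `ℤ_p`.

The number of the lengths of cycles in an interval of length `H` is `O (H ^ (12/13))` (starting file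
`IntervalLengths`); the rest are coverings.
-/

set_option autoImplicit false

open MeasureTheory

namespace Pool.Agent.Results.MP_dee342_nt.PadicClasses

open Pool.Agent.Results.MP_dee342_nt.CycleLengthsNearPowers (Lengths count finite_cycles)

/-- The map `T_{a,b}` on the integers. -/
def T (a b x : ℤ) : ℤ := if x % 2 = 0 then x / 2 else (a * x + b) / 2

/-- `Z` is a cycle (periodic orbit) of `T_3 = T_{3,1}`. -/
def IsCycle (Z : Finset ℤ) : Prop :=
  ∃ (x : ℤ) (p : ℕ), 1 ≤ p ∧ (T 3 1)^[p] x = x ∧ Z = (Finset.range p).image fun i => (T 3 1)^[i] x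

theorem result :
    (∀ (p : ℕ) [Fact p.Prime] (σ : ℝ), 0 < σ → ∃ E : Set ℤ_[p], dimH E ≤ ENNReal.ofReal ((12 / 13) / σ) ∧
      ∀ α ∉ E, ∃ T₀ : ℝ, ∀ T ≥ T₀, ∀ Z : Finset ℤ, IsCycle Z → (Z.card : ℝ) ≤ T →
        T ^ (-σ) < ‖((Z.card : ℕ) : ℤ_[p]) - α‖) ∧
    (∀ (M : Type) [MetricSpace M] (φ : ℕ → M) (σ : ℝ), 0 < σ →
      ∃ E : Set M, dimH E ≤ ENNReal.ofReal ((12 / 13) / σ) ∧ ∀ z ∉ E,
        {Z : Finset ℤ | IsCycle Z ∧ dist (φ Z.card) z ≤ (Z.card : ℝ) ^ (-σ)}.Finite) := by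
  refine ⟨fun p _ σ hσ => ?_, fun M _ φ σ hσ => ?_⟩
  · obtain ⟨E, h1, h2⟩ := Pool.Agent.H223.PS.padic_nat p (fun _ => Lengths) (s := 12 / 13) (by norm_num)
      (fun _ => count) hσ
    refine ⟨E, h1, fun α hα => ?_⟩
    obtain ⟨T₀, hT₀⟩ := h2 α hα 0
    refine ⟨T₀, fun T hT Z hZ hZT => ?_⟩
    by_contra hcon
    exact hT₀ T hT Z.card hZT (not_lt.1 hcon) ⟨Z, hZ, rfl⟩
  · obtain ⟨E, h1, h2⟩ := Pool.Agent.H107.ME.dim_family φ (fun t : ℕ => max 1 (t : ℝ))
      (fun t => le_max_left _ _) (s := 12 / 13) (by norm_num) hσ (fun _ : Unit => Lengths) (fun _ ε hε => by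
        obtain ⟨C, hC⟩ := count ε hε
        refine ⟨C, fun X hX => ?_⟩
        obtain ⟨g1, g2⟩ := hC X hX
        have hsub : {t : ℕ | t ∈ Lengths ∧ max 1 (t : ℝ) ≤ X} ⊆ {t : ℕ | t ∈ Lengths ∧ (t : ℝ) ≤ X} := by
          rintro t ⟨a, b⟩
          exact ⟨a, (le_max_right _ _).trans b⟩
        exact ⟨g1.subset hsub, le_trans (by exact_mod_cast Set.ncard_le_ncard hsub g1) g2⟩)
    refine ⟨E, h1, fun z hz => ?_⟩
    have hfin := h2 z hz ()
    obtain ⟨B, hB⟩ := hfin.bddAbove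
    refine (finite_cycles ((B : ℝ) + 1)).subset ?_
    rintro Z ⟨hZ, hd⟩
    refine ⟨hZ, ?_⟩
    have hZ1 : (1 : ℝ) ≤ Z.card := by
      obtain ⟨x, q, hq, -, rfl⟩ := hZ
      have : 0 < ((Finset.range q).image fun i => (T 3 1)^[i] x).card :=
        Finset.card_pos.2 ⟨x, Finset.mem_image.2 ⟨0, Finset.mem_range.2 hq, rfl⟩⟩
      exact_mod_cast this
    have hmem : Z.card ∈ {t : ℕ | t ∈ Lengths ∧ dist (φ t) z ≤ (max 1 (t : ℝ)) ^ (-σ)} := by
      refine ⟨⟨Z, hZ, rfl⟩, ?_⟩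
      rw [max_eq_right hZ1]
      exact hd
    have h3 : (Z.card : ℝ) ≤ B := by exact_mod_cast hB hmem
    linarith

end Pool.Agent.Results.MP_dee342_nt.PadicClasses
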