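import Pool.Agent.Y927.GP.M2
import Pool.Agent.V11113.CT.Traj2
import Pool.Agent.V11113.MR.BilFam

/-!
# Cycles of the maps `T_{a,b}` and thin families of integers

The families consist of the integers `n = z + v i`, where `z` is an arbitrary integer with `|z| ≤ m ^ B` and the `v i` are the
least residues modulo an arbitrary large integer `m` of a family with exponential sums `O(#s m ^ (-ω))`, with an arbitrarily
small `ω > 0` (`Small`). Examples (part (3)): the values `x · Q y + f₁(x) + f₂(y)` modulo a prime `p` at the pairs of vectors of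
two arbitrary sets with `#A #A' ≥ p ^ (d + 2 ω)`; for `d = 1` this contains the products of the elements of two arbitrary sets
with `#A #A' ≥ p ^ (1 + 2 ω)` and the multiplicative subgroups of order `p ^ (1 / 2 + ω)`. Nothing else is assumed about the
family; it may have as few as about `m ^ (2 ω)` different members.

For all but a proportion `m ^ (-δ)` of the members `n` and a given nonconstant polynomial `f` every cycle of `T_{3,b}` through
`f(n)` contains an element of absolute value at most `|f(n)| ^ (1 - η)`, and every cycle of `T_{a,b}`, `a ≥ 5`, through `f(n)`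
contains an element of absolute value at least `|f(n)| ^ (1 + η)`.
-/

set_option autoImplicit false

namespace Pool.Agent.Results.MP_dee342_nt.ThinFamilies

open Finset Filter Polynomial Pool.Agent.Y927.GP Matrix

/-- The map `T_{a,b}`. -/
def T (a b x : ℤ) : ℤ := if x % 2 = 0 then x / 2 else (a * x + b) / 2

/-- The set `c` is a cycle (periodic orbit) of the map `F`. -/
def IsCycle (F : ℤ → ℤ) (c : Set ℤ) : Prop :=
  ∃ (x : ℤ) (p : ℕ), 1 ≤ p ∧ F^[p] x = x ∧ c = {y | ∃ k < p, y = F^[k] x}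

/-- The exponential sums over the family `v i ∈ ℤ / m`, `i ∈ s`, at all nonzero frequencies are at most
`#s m ^ (-ω)`. (`ZMod.stdAddChar` is the character `e(x / m)`.) -/
def Small (m : ℕ) [NeZero m] (ω : ℝ) {ι : Type} (s : Finset ι) (v : ι → ZMod m) : Prop :=
  ∀ b : ZMod m, b ≠ 0 → ‖∑ i ∈ s, (ZMod.stdAddChar (b * v i) : ℂ)‖ ≤ s.card * (m : ℝ) ^ (-ω)

open Classical in
/-- The number of the members `i` of the family for which the integer `n i` does not have the property `E`. -/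
noncomputable def exceptions {ι : Type} (s : Finset ι) (n : ι → ℤ) (E : ℤ → Prop) : ℕ :=
  (s.filter (fun i => ¬ E (n i))).card

theorem exceptions_le {ι : Type} {s : Finset ι} {n : ι → ℤ} {E : ℤ → Prop} {X : ℝ}
    (h : ∀ A ⊆ s, (∀ i ∈ A, ¬ E (n i)) → (A.card : ℝ) ≤ X) : (exceptions s n E : ℝ) ≤ X := by
  classical
  unfold exceptions
  exact h _ (filter_subset _ _) (fun S hS => (mem_filter.1 hS).2)

theorem cycle_iter {F : ℤ → ℤ} {c : Set ℤ} (h : IsCycle F c) {y : ℤ} (hy : y ∈ c) (j : ℕ) : F^[j] y ∈ c := by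
  obtain ⟨x, p, hp, hx, rfl⟩ := h
  obtain ⟨k, hk, rfl⟩ := hy
  refine ⟨(j + k) % p, Nat.mod_lt _ (by omega), ?_⟩
  rw [← Function.iterate_add_apply]
  conv_lhs => rw [← Nat.mod_add_div (j + k) p]
  rw [Function.iterate_add_apply]
  congr 1
  have : ∀ t : ℕ, F^[p * t] x = x := by
    intro t
    rw [Function.iterate_mul]
    exact Function.iterate_fixed hx t
  exact this _

/-- The map in the library. -/
theorem T_eq (a : ℕ) (b : ℤ) : Mo.T 2 a (fun _ => -b) = T a b := by
  funext x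
  unfold Mo.T T
  push_cast
  split_ifs with h
  · rfl
  · congr 1
    ring

/-- **Main theorem.** Let `a ≥ 1` and `b` be odd, `f` a polynomial of degree at least `1` with integer coefficients, `ω > 0` and
`B ≥ 1`.

(1) If `a ≤ 3`, there are `η, δ > 0` and `m₀` such that for all `m ≥ m₀`, all families with `Small m ω s v` and all integers `z` with
`|z| ≤ m ^ B` the following holds for all but at most `m ^ (-δ) #s` of the integers `n = z + v i` (`0 ≤ v i < m` the least
residue): the orbit of `f(n)` under `T_{a,b}` has an element of absolute value at most `|f(n)| ^ (1 - η)`; in particular every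
cycle of `T_{a,b}` through `f(n)` contains such an element.

(2) If `a ≥ 5`, the same holds with an element of absolute value at least `|f(n)| ^ (1 + η)`.

(3) `Small p ω` holds for every prime `p`, every `d`, all sets `A`, `A'` of vectors modulo `p` with
`#A #A' ≥ p ^ (d + 2 ω)`, every invertible matrix `Q` and arbitrary functions `f₁`, `f₂`, for the family
`x · Q y + f₁(x) + f₂(y)`, `x ∈ A`, `y ∈ A'`. -/
theorem result (a : ℕ) (ha : Odd a) (b : ℤ) (hb : Odd b) (f : ℤ[X]) (hf : 1 ≤ f.natDegree) (ω : ℝ) (hω : 0 < ω)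
    (B : ℝ) (hB : 1 ≤ B) :
    (a ≤ 3 → ∃ η δ : ℝ, 0 < η ∧ 0 < δ ∧ ∃ m₀ : ℕ, ∀ (m : ℕ) [NeZero m], m₀ ≤ m →
      ∀ (ι : Type) (s : Finset ι) (v : ι → ZMod m), Small m ω s v → ∀ z : ℤ, |(z : ℝ)| ≤ (m : ℝ) ^ B →
      (exceptions s (fun i => z + ((v i).val : ℤ))
        (fun n => (∃ k : ℕ, |(((T a b)^[k] (f.eval n) : ℤ) : ℝ)| ≤ |((f.eval n : ℤ) : ℝ)| ^ (1 - η)) ∧
          ∀ c : Set ℤ, IsCycle (T a b) c → f.eval n ∈ c → ∃ x ∈ c, |(x : ℝ)| ≤ |((f.eval n : ℤ) : ℝ)| ^ (1 - η)) : ℝ) ≤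
        (m : ℝ) ^ (-δ) * s.card) ∧
    (5 ≤ a → ∃ η δ : ℝ, 0 < η ∧ 0 < δ ∧ ∃ m₀ : ℕ, ∀ (m : ℕ) [NeZero m], m₀ ≤ m →
      ∀ (ι : Type) (s : Finset ι) (v : ι → ZMod m), Small m ω s v → ∀ z : ℤ, |(z : ℝ)| ≤ (m : ℝ) ^ B →
      (exceptions s (fun i => z + ((v i).val : ℤ))
        (fun n => (∃ k : ℕ, |((f.eval n : ℤ) : ℝ)| ^ (1 + η) ≤ |(((T a b)^[k] (f.eval n) : ℤ) : ℝ)|) ∧
          ∀ c : Set ℤ, IsCycle (T a b) c → f.eval n ∈ c → ∃ x ∈ c, |((f.eval n : ℤ) : ℝ)| ^ (1 + η) ≤ |(x : ℝ)|) : ℝ) ≤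
        (m : ℝ) ^ (-δ) * s.card) ∧
    (∀ (p : ℕ) [Fact p.Prime] (d : ℕ) (A A' : Finset (Fin d → ZMod p)) (Q : Matrix (Fin d) (Fin d) (ZMod p)),
      IsUnit Q.det → (p : ℝ) ^ (d + 2 * ω) ≤ A.card * A'.card → ∀ f₁ f₂ : (Fin d → ZMod p) → ZMod p,
      Small p ω (A ×ˢ A') (fun z => z.1 ⬝ᵥ Q.mulVec z.2 + f₁ z.1 + f₂ z.2)) := by
  have ha1 : 1 ≤ a := ha.pos
  have hc : Nat.Coprime a 2 := (Nat.coprime_two_right).2 ha
  have hr : ∀ j : ℤ, 1 ≤ j → j < (2 : ℕ) → ((2 : ℕ) : ℤ) ∣ a * j - (fun _ : ℤ => -b) j := by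
    intro j h1 h2
    push_cast at h2 ⊢
    have hj : j = 1 := by omega
    rw [hj]
    obtain ⟨u, hu⟩ := ha
    obtain ⟨v, hv⟩ := hb
    rw [hu, hv]
    push_cast
    exact ⟨u + v + 1, by ring⟩
  have D := Mo.data (r := fun _ => -b) (le_refl 2) hc hr
  have hC := Mo.cls (m := a) (r := fun _ => -b) (le_refl 2)
  have hTT : (Pool.Agent.H319R2.Leigh.gm D).T = T a b := by rw [Pool.Agent.H319R2.Leigh.gm_T, Mo.T_eq, T_eq]
  have hmu := Mo.mu_eq (le_refl 2) D
  have hl2 : 0 < Real.log 2 := Real.log_pos (by norm_num)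
  refine ⟨fun ha3 => ?_, fun ha5 => ?_, ?_⟩
  · have hμ : mu (Pool.Agent.H319R2.Leigh.gm D) (Mo.CC 2) (fun _ => 1 / ((2 : ℕ) : ℝ)) < 0 := by
      rw [hmu]
      have h1 : Real.log a ≤ Real.log 3 := Real.log_le_log (by exact_mod_cast ha1) (by exact_mod_cast ha3)
      have h2 : Real.log 3 < 2 * Real.log 2 := by
        have : (2 : ℝ) * Real.log 2 = Real.log 4 := by
          rw [show (4 : ℝ) = 2 ^ 2 by norm_num, Real.log_pow]
          norm_num
        rw [this]
        exact Real.log_lt_log (by norm_num) (by norm_num)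
      push_cast
      norm_num
      linarith
    obtain ⟨η, δ, hη, hδ, m₀, h⟩ := Pool.Agent.V11113.CT.drop_pow (Pool.Agent.H319R2.Leigh.gm_fac D)
      (Pool.Agent.H319R2.Leigh.gm_cls D hC) hμ hf hω B hB
    rw [hTT] at h
    refine ⟨η, δ, hη, hδ, m₀, fun m _ hm ι s v hs z hz => ?_⟩
    apply exceptions_le
    intro A hA hE
    refine h m hm s v hs z hz A hA (fun S hS => ⟨Mo.mem_S (le_refl 2) _, fun k => ?_⟩)
    by_contra hcon
    push Not at hcon
    exact hE S hS ⟨⟨k, hcon⟩, fun c hc' hmem => ⟨_, cycle_iter hc' hmem k, hcon⟩⟩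
  · have hμ : 0 < mu (Pool.Agent.H319R2.Leigh.gm D) (Mo.CC 2) (fun _ => 1 / ((2 : ℕ) : ℝ)) := by
      rw [hmu]
      have h1 : Real.log 5 ≤ Real.log a := Real.log_le_log (by norm_num) (by exact_mod_cast ha5)
      have h2 : 2 * Real.log 2 < Real.log 5 := by
        have : (2 : ℝ) * Real.log 2 = Real.log 4 := by
          rw [show (4 : ℝ) = 2 ^ 2 by norm_num, Real.log_pow]
          norm_num
        rw [this]
        exact Real.log_lt_log (by norm_num) (by norm_num)
      push_cast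
      norm_num
      linarith
    obtain ⟨η, δ, hη, hδ, m₀, h⟩ := Pool.Agent.V11113.CT.rise_pow (Pool.Agent.H319R2.Leigh.gm_fac D)
      (Pool.Agent.H319R2.Leigh.gm_cls D hC) hμ hf hω B hB
    rw [hTT] at h
    refine ⟨η, δ, hη, hδ, m₀, fun m _ hm ι s v hs z hz => ?_⟩
    apply exceptions_le
    intro A hA hE
    refine h m hm s v hs z hz A hA (fun S hS => ⟨Mo.mem_S (le_refl 2) _, fun k => ?_⟩)
    by_contra hcon
    push Not at hcon
    exact hE S hS ⟨⟨k, hcon⟩, fun c hc' hmem => ⟨_, cycle_iter hc' hmem k, hcon⟩⟩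
  · intro p _ d A A' Q hQ hN f g b hb
    exact Pool.Agent.V11113.MR.bil_small ω p d A A' Q hQ f g hN b hb

end Pool.Agent.Results.MP_dee342_nt.ThinFamilies
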